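import Mathlib

namespace Pool.Agent.Lib.helper10.ER
open Cardinal
universe u

theorem exists_fix {W X : Type u} [LinearOrder W] [WellFoundedLT W] (x0 : X)
    (F : W → (W → X) → X)
    (hF : ∀ i g g', (∀ j, j < i → g j = g' j) → F i g = F i g') :
    ∃ b : W → X, ∀ i, b i = F i b := by
  classical
  let b : W → X := (wellFounded_lt (α := W)).fix
    (fun i r => F i (fun j => if h : j < i then r j h else x0))
  refine ⟨b, fun i => ?_⟩
  have : b i = F i (fun j => if _ : j < i then b j else x0) :=
    (wellFounded_lt (α := W)).fix_eq _ i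
  rw [this]
  apply hF
  intro j hj
  simp [hj]

def S {W X C : Type u} [LinearOrder W] [LinearOrder X] (f : List X → C) (x : X) (i : W)
    (g : W → X) : Set X :=
  {y | (∀ j, j < i → g j < y) ∧
    ∀ l : List W, (∀ j ∈ l, j < i) → f (y :: l.map g) = f (x :: l.map g)}

theorem S_congr {W X C : Type u} [LinearOrder W] [LinearOrder X] (f : List X → C) (x y : X)
    (i : W) (g g' : W → X) (h : ∀ j, j < i → g j = g' j)
    (h2 : ∀ l : List W, (∀ j ∈ l, j < i) → f (x :: l.map g) = f (y :: l.map g')) :
    S f x i g = S f y i g' := by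
  have hl : ∀ l : List W, (∀ j ∈ l, j < i) → l.map g = l.map g' := fun l hl =>
    List.map_congr_left (fun j hj => h j (hl j hj))
  ext z
  constructor
  · rintro ⟨h3, h4⟩
    refine ⟨fun j hj => h j hj ▸ h3 j hj, fun l hl' => ?_⟩
    rw [← h2 l hl', ← h4 l hl', hl l hl']
  · rintro ⟨h3, h4⟩
    refine ⟨fun j hj => (h j hj).symm ▸ h3 j hj, fun l hl' => ?_⟩
    rw [h2 l hl', ← h4 l hl', hl l hl']

theorem endhom {W X C : Type u} [LinearOrder W] [WellFoundedLT W] [LinearOrder X]
    [WellFoundedLT X] (f : List X → C) (hX : #(W × (List W → C)) < #X) :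
    ∃ (b : W → X) (x : X), StrictMono b ∧
      ∀ (i : W) (l : List W), (∀ j ∈ l, j < i) → f (b i :: l.map b) = f (x :: l.map b) := by
  classical
  let F : X → W → (W → X) → X := fun x i g =>
    if h : (S f x i g).Nonempty then (wellFounded_lt (α := X)).min _ h else x
  have hF : ∀ x i g g', (∀ j, j < i → g j = g' j) → F x i g = F x i g' := by
    intro x i g g' h
    have : S f x i g = S f x i g' := S_congr f x x i g g' h (fun l hl => by
      rw [List.map_congr_left (fun j hj => h j (hl j hj))])
    simp only [F, this]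
  choose b hb using fun x => exists_fix x (F x) (hF x)
  have mem : ∀ x i, (∀ j, j < i → b x j < x) → x ∈ S f x i (b x) :=
    fun x i h => ⟨h, fun _ _ => rfl⟩
  have key : ∀ x i, (∀ j, j < i → b x j < x) → b x i ∈ S f x i (b x) ∧ b x i ≤ x := by
    intro x i h
    have hne : (S f x i (b x)).Nonempty := ⟨x, mem x i h⟩
    have e : b x i = (wellFounded_lt (α := X)).min _ hne := by
      rw [hb x i]; simp only [F, dif_pos hne]
    rw [e]
    exact ⟨WellFounded.min_mem _ _ _, not_lt.1 (WellFounded.not_lt_min _ _ (mem x i h))⟩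
  by_cases hall : ∀ x, ∃ i, b x i = x ∧ ∀ j, j < i → b x j < x
  · exfalso
    choose ι h1 h2 using hall
    let code : X → W × (List W → C) := fun x => (ι x, fun l => f (x :: l.map (b x)))
    have hinj : Function.Injective code := by
      intro x y hxy
      have e1 : ι x = ι y := congrArg Prod.fst hxy
      have e2 : ∀ l : List W, f (x :: l.map (b x)) = f (y :: l.map (b y)) :=
        fun l => congrFun (congrArg Prod.snd hxy) l
      have e3 : ∀ j, j ≤ ι x → b x j = b y j := by
        intro j
        induction j using WellFoundedLT.induction with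
        | ind j ih =>
          intro hj
          have hS : S f x j (b x) = S f y j (b y) :=
            S_congr f x y j _ _ (fun k hk => ih k hk (hk.le.trans hj)) (fun l _ => e2 l)
          have hx : (S f x j (b x)).Nonempty :=
            ⟨x, mem x j (fun k hk => h2 x k (hk.trans_le hj))⟩
          have hy : (S f y j (b y)).Nonempty := hS ▸ hx
          rw [hb x j, hb y j]
          simp only [F, dif_pos hx, dif_pos hy, hS]
      calc x = b x (ι x) := (h1 x).symm
        _ = b y (ι x) := e3 _ le_rfl
        _ = y := by rw [e1, h1 y]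
    exact absurd (Cardinal.mk_le_of_injective hinj) (not_le.2 hX)
  · push Not at hall
    obtain ⟨x, hx⟩ := hall
    have good : ∀ i, b x i < x := by
      intro i
      induction i using WellFoundedLT.induction with
      | ind i ih =>
        refine lt_of_le_of_ne (key x i ih).2 (fun e => ?_)
        obtain ⟨j, hj, hj'⟩ := hx i e
        exact absurd (ih j hj) (not_lt.2 hj')
    refine ⟨b x, x, fun j i hji => (key x i (fun k _ => good k)).1.1 j hji, fun i l hl => ?_⟩
    exact (key x i (fun k _ => good k)).1.2 l hl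

theorem er (n : ℕ) (W C : Type u) [LinearOrder W] [WellFoundedLT W] :
    ∃ lam : Cardinal.{u}, ∀ (X : Type u) [LinearOrder X] [WellFoundedLT X], lam ≤ #X →
      ∀ f : List X → C, ∃ a : W → X, StrictMono a ∧
        ∃ c, ∀ l : List W, l.Pairwise (· > ·) → l.length = n → f (l.map a) = c := by
  induction n with
  | zero =>
    refine ⟨Order.succ #(W × (List W → C)), fun X _ _ hX f => ?_⟩
    obtain ⟨b, _, hb, _⟩ := endhom (W := W) f (Order.succ_le_iff.1 hX)
    refine ⟨b, hb, f [], fun l _ hl => ?_⟩
    rw [List.length_eq_zero_iff.1 hl]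
    rfl
  | succ n ih =>
    obtain ⟨lam, hlam⟩ := ih
    refine ⟨Order.succ #(lam.ord.ToType × (List lam.ord.ToType → C)), fun X _ _ hX f => ?_⟩
    obtain ⟨b, x, hb, hx⟩ := endhom (W := lam.ord.ToType) f (Order.succ_le_iff.1 hX)
    obtain ⟨a, ha, c, hc⟩ := hlam lam.ord.ToType (by simp) (fun l => f (x :: l.map b))
    refine ⟨b ∘ a, hb.comp ha, c, fun l hl hn => ?_⟩
    rcases l with _ | ⟨i, l⟩
    · simp at hn
    · rw [List.pairwise_cons] at hl
      have h1 := hx (a i) (l.map a) (by
        intro j hj
        obtain ⟨k, hk, rfl⟩ := List.mem_map.1 hj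
        exact ha (hl.1 k hk))
      have h2 := hc l hl.2 (by simpa using hn)
      rw [← h2, ← h1]
      simp

end Pool.Agent.Lib.helper10.ER
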