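import Mathlib

set_option linter.unusedSectionVars false

/-! Rellich compactness in `L²` for `C¹` functions supported in a bounded set. -/

namespace Pool.Agent.Lib.helper10.Rellich

open MeasureTheory Filter Topology Set Metric ProbabilityTheory
open scoped ENNReal

lemma jensen_sq {α : Type*} [MeasurableSpace α] (ν : Measure α) [IsProbabilityMeasure ν]
    {g : α → ℝ} (hg : MemLp g 2 ν) : (∫ a, g a ∂ν) ^ 2 ≤ ∫ a, g a ^ 2 ∂ν := by
  have h1 := variance_nonneg g ν
  rw [variance_eq_sub hg] at h1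
  simpa using h1

lemma jensen_sq' {α : Type*} [MeasurableSpace α] (ν : Measure α) [IsProbabilityMeasure ν]
    {g : α → ℝ} (hg : MemLp g 2 ν) :
    ENNReal.ofReal ((∫ a, g a ∂ν) ^ 2) ≤ ∫⁻ a, ENNReal.ofReal (g a ^ 2) ∂ν := by
  rw [← ofReal_integral_eq_lintegral_ofReal hg.integrable_sq
    (Eventually.of_forall fun _ => sq_nonneg _)]
  exact ENNReal.ofReal_le_ofReal (jensen_sq ν hg)

variable {E : Type*} [NormedAddCommGroup E] [NormedSpace ℝ E] [FiniteDimensional ℝ E]
  [MeasurableSpace E] [BorelSpace E] (μ : Measure E) [μ.IsAddHaarMeasure]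

lemma trans_est {φ : E → ℝ} (hφ : ContDiff ℝ 1 φ) (h : E) :
    ∫⁻ x, ENNReal.ofReal ((φ (x + h) - φ x) ^ 2) ∂μ
      ≤ ENNReal.ofReal (‖h‖ ^ 2) * ∫⁻ x, ENNReal.ofReal (‖fderiv ℝ φ x‖ ^ 2) ∂μ := by
  have hc : Continuous (fderiv ℝ φ) := hφ.continuous_fderiv one_ne_zero
  have hd : Differentiable ℝ φ := hφ.differentiable one_ne_zero
  have : IsProbabilityMeasure (volume.restrict (Ioc (0 : ℝ) 1)) := ⟨by simp⟩
  have key : ∀ x, ENNReal.ofReal ((φ (x + h) - φ x) ^ 2) ≤ ∫⁻ t in Ioc (0 : ℝ) 1,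
      ENNReal.ofReal (‖h‖ ^ 2) * ENNReal.ofReal (‖fderiv ℝ φ (x + t • h)‖ ^ 2) := by
    intro x
    have h1 : ∀ t : ℝ, HasDerivAt (fun t : ℝ => φ (x + t • h)) (fderiv ℝ φ (x + t • h) h) t := by
      intro t
      have : HasDerivAt (fun t : ℝ => x + t • h) h t := by
        simpa using ((hasDerivAt_id t).smul_const h).const_add x
      exact (hd (x + t • h)).hasFDerivAt.comp_hasDerivAt t this
    have h2 : Continuous fun t : ℝ => fderiv ℝ φ (x + t • h) h := by fun_prop
    have h3 := intervalIntegral.integral_eq_sub_of_hasDerivAt (a := 0) (b := 1)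
      (fun t _ => h1 t) (h2.intervalIntegrable _ _)
    simp only [one_smul, zero_smul, add_zero] at h3
    rw [← h3, intervalIntegral.integral_of_le zero_le_one]
    obtain ⟨C, hC⟩ := (isCompact_Icc (a := (0 : ℝ)) (b := 1)).exists_bound_of_continuousOn
      h2.continuousOn
    refine (jensen_sq' _ (MemLp.of_bound h2.aestronglyMeasurable C ?_)).trans
      (lintegral_mono fun t => ?_)
    · filter_upwards [ae_restrict_mem measurableSet_Ioc] with t ht
      exact hC t (Ioc_subset_Icc_self ht)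
    · rw [← ENNReal.ofReal_mul (sq_nonneg _), ← mul_pow]
      refine ENNReal.ofReal_le_ofReal (sq_le_sq' ?_ ?_)
      · have := (fderiv ℝ φ (x + t • h)).le_opNorm h
        rw [Real.norm_eq_abs, mul_comm] at this
        exact (abs_le.1 this).1
      · have := (fderiv ℝ φ (x + t • h)).le_opNorm h
        rw [Real.norm_eq_abs, mul_comm] at this
        exact (abs_le.1 this).2
  refine (lintegral_mono key).trans ?_
  rw [lintegral_lintegral_swap (by fun_prop)]
  have : ∀ t : ℝ, ∫⁻ x, ENNReal.ofReal (‖h‖ ^ 2) *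
      ENNReal.ofReal (‖fderiv ℝ φ (x + t • h)‖ ^ 2) ∂μ
      = ENNReal.ofReal (‖h‖ ^ 2) * ∫⁻ x, ENNReal.ofReal (‖fderiv ℝ φ x‖ ^ 2) ∂μ := by
    intro t
    rw [lintegral_const_mul' _ _ ENNReal.ofReal_ne_top,
      lintegral_add_right_eq_self (fun x => ENNReal.ofReal (‖fderiv ℝ φ x‖ ^ 2))]
  simp only [this]
  simp

/-- average over a ball -/
noncomputable def avg (ε : ℝ) (φ : E → ℝ) (x : E) : ℝ := ∫ h, φ (x + h) ∂μ[|ball 0 ε]

lemma prob {ε : ℝ} (hε : 0 < ε) : IsProbabilityMeasure μ[|ball 0 ε] :=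
  cond_isProbabilityMeasure_of_finite (measure_ball_pos μ 0 hε).ne' measure_ball_lt_top.ne

lemma avg_meas (ε : ℝ) (hε : 0 < ε) {φ : E → ℝ} (hφ : Continuous φ) : Measurable (avg μ ε φ) := by
  have := prob μ hε
  exact (StronglyMeasurable.integral_prod_right (f := fun x h => φ (x + h))
    (Continuous.stronglyMeasurable (by unfold Function.uncurry; fun_prop))).measurable

lemma avg_est {ε : ℝ} (hε : 0 < ε) {φ : E → ℝ} (hφ : ContDiff ℝ 1 φ) (hs : HasCompactSupport φ) :
    ∫⁻ x, ENNReal.ofReal ((avg μ ε φ x - φ x) ^ 2) ∂μ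
      ≤ ENNReal.ofReal (ε ^ 2) * ∫⁻ x, ENNReal.ofReal (‖fderiv ℝ φ x‖ ^ 2) ∂μ := by
  have := prob μ hε
  have hc := hφ.continuous
  obtain ⟨C, hC⟩ := hc.bounded_above_of_compact_support hs
  have key : ∀ x, ENNReal.ofReal ((avg μ ε φ x - φ x) ^ 2)
      ≤ ∫⁻ h, ENNReal.ofReal ((φ (x + h) - φ x) ^ 2) ∂μ[|ball 0 ε] := by
    intro x
    have h1 : MemLp (fun h => φ (x + h)) 2 μ[|ball 0 ε] :=
      MemLp.of_bound (by fun_prop) C (Eventually.of_forall fun h => hC _)
    have h2 : avg μ ε φ x - φ x = ∫ h, (φ (x + h) - φ x) ∂μ[|ball 0 ε] := by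
      rw [integral_sub (h1.integrable (by norm_num)) (integrable_const _)]
      simp [avg]
    rw [h2]
    exact jensen_sq' _ (h1.sub (memLp_const _))
  refine (lintegral_mono key).trans ?_
  rw [lintegral_lintegral_swap (by fun_prop)]
  calc _ ≤ ∫⁻ _, ENNReal.ofReal (ε ^ 2) * ∫⁻ x, ENNReal.ofReal (‖fderiv ℝ φ x‖ ^ 2) ∂μ
          ∂μ[|ball 0 ε] := by
        refine lintegral_mono_ae ?_
        filter_upwards [ae_cond_mem measurableSet_ball] with h hh
        refine (trans_est μ hφ h).trans ?_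
        have := (mem_ball_zero_iff.1 hh).le
        gcongr
    _ = _ := by simp

lemma avg_eq (ε : ℝ) (φ : E → ℝ) (x : E) :
    avg μ ε φ x = (μ (ball 0 ε))⁻¹.toReal * ∫ y in ball x ε, φ y ∂μ := by
  unfold avg ProbabilityTheory.cond
  rw [integral_smul_measure, smul_eq_mul, ← integral_indicator measurableSet_ball,
    ← integral_indicator measurableSet_ball,
    ← integral_add_left_eq_self (fun y => (ball x ε).indicator φ y) x]
  congr 2
  ext h
  simp only [indicator, mem_ball, dist_eq_norm, add_sub_cancel_left, sub_zero]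

lemma avg_bound {ε : ℝ} (hε : 0 < ε) {φ : E → ℝ} (hφ : MemLp φ 2 μ) (x : E) :
    avg μ ε φ x ^ 2 ≤ (μ (ball 0 ε))⁻¹.toReal * ∫ y, φ y ^ 2 ∂μ := by
  have := prob μ hε
  have h0 : MemLp (fun h => φ (x + h)) 2 μ :=
    hφ.comp_measurePreserving (measurePreserving_add_left μ x)
  have h1 : MemLp (fun h => φ (x + h)) 2 μ[|ball 0 ε] :=
    (h0.restrict _).smul_measure (by simpa using (measure_ball_pos μ 0 hε).ne')
  refine (jensen_sq _ h1).trans ?_
  unfold ProbabilityTheory.cond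
  rw [integral_smul_measure, smul_eq_mul, ← integral_add_left_eq_self (fun y => φ y ^ 2) x]
  exact mul_le_mul_of_nonneg_left (setIntegral_le_integral h0.integrable_sq
    (Eventually.of_forall fun _ => sq_nonneg _)) ENNReal.toReal_nonneg

theorem rellich {s : Set E} (hs : Bornology.IsBounded s) {φ : ℕ → E → ℝ}
    (hφ : ∀ n, ContDiff ℝ 1 (φ n)) (hsupp : ∀ n, Function.support (φ n) ⊆ s) {C : ℝ}
    (h2 : ∀ n, ∫ x, φ n x ^ 2 ∂μ ≤ C) (hD : ∀ n, ∫ x, ‖fderiv ℝ (φ n) x‖ ^ 2 ∂μ ≤ C) :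
    ∃ κ : ℕ → ℕ, StrictMono κ ∧
      Tendsto (fun p : ℕ × ℕ => ∫ x, (φ (κ p.1) x - φ (κ p.2) x) ^ 2 ∂μ) atTop (𝓝 0) := by
  obtain ⟨R, hR⟩ := hs.subset_closedBall 0
  have hcs : ∀ n, HasCompactSupport (φ n) := fun n =>
    HasCompactSupport.of_support_subset_isCompact (isCompact_closedBall 0 R) ((hsupp n).trans hR)
  have hm : ∀ n, MemLp (φ n) 2 μ := fun n =>
    (hφ n).continuous.memLp_of_hasCompactSupport (hcs n)
  have hC : 0 ≤ C := le_trans (integral_nonneg fun _ => sq_nonneg _) (h2 0)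
  have hDl : ∀ n, ∫⁻ x, ENNReal.ofReal (‖fderiv ℝ (φ n) x‖ ^ 2) ∂μ ≤ ENNReal.ofReal C := by
    intro n
    have hi : MemLp (fun x => ‖fderiv ℝ (φ n) x‖) 2 μ :=
      (((hφ n).continuous_fderiv one_ne_zero).memLp_of_hasCompactSupport
        ((hcs n).fderiv ℝ)).norm
    rw [← ofReal_integral_eq_lintegral_ofReal hi.integrable_sq
      (Eventually.of_forall fun _ => sq_nonneg _)]
    exact ENNReal.ofReal_le_ofReal (hD n)
  have : Fact ((2 : ℝ≥0∞) ≠ ⊤) := ⟨by simp⟩
  let y : ℕ → WeakDual ℝ (Lp ℝ 2 μ) := fun n =>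
    StrongDual.toWeakDual (InnerProductSpace.toDual ℝ _ ((hm n).toLp _))
  have hy : ∀ n, y n ∈ WeakDual.toStrongDual ⁻¹' closedBall (0 : StrongDual ℝ (Lp ℝ 2 μ)) √C := by
    intro n
    simp only [y, mem_preimage, mem_closedBall_zero_iff]
    change ‖InnerProductSpace.toDual ℝ _ ((hm n).toLp _)‖ ≤ _
    rw [LinearIsometryEquiv.norm_map]
    refine Real.le_sqrt_of_sq_le ?_
    rw [← real_inner_self_eq_norm_sq, L2.inner_def]
    refine le_trans (le_of_eq (integral_congr_ae ?_)) (h2 n)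
    filter_upwards [(hm n).coeFn_toLp] with x hx
    simp [hx, sq]
  obtain ⟨z, -, κ, hκ, hz⟩ := WeakDual.isSeqCompact_closedBall ℝ _ 0 √C hy
  have hw : ∀ x ε, ∃ l, Tendsto (fun n => avg μ ε (φ (κ n)) x) atTop (𝓝 l) := by
    intro x ε
    have h1 := ((WeakDual.eval_continuous
      (indicatorConstLp 2 (measurableSet_ball (x := x) (ε := ε)) measure_ball_lt_top.ne
        (1 : ℝ))).tendsto z).comp hz
    refine ⟨_, (h1.const_mul (μ (ball 0 ε))⁻¹.toReal).congr fun n => ?_⟩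
    rw [avg_eq]
    congr 1
    change inner ℝ ((hm (κ n)).toLp _) _ = _
    rw [real_inner_comm, L2.inner_indicatorConstLp_one]
    exact setIntegral_congr_ae measurableSet_ball ((hm _).coeFn_toLp.mono fun _ h _ => h)
  refine ⟨κ, hκ, ?_⟩
  suffices h : Tendsto (fun p : ℕ × ℕ =>
      ∫⁻ x, ENNReal.ofReal ((φ (κ p.1) x - φ (κ p.2) x) ^ 2) ∂μ) atTop (𝓝 0) by
    refine ((ENNReal.tendsto_toReal ENNReal.zero_ne_top).comp h).congr fun p => ?_
    rw [integral_eq_lintegral_of_nonneg_ae (Eventually.of_forall fun _ => sq_nonneg _)]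
    · rfl
    · exact ((hm _).sub (hm _)).integrable_sq.1
  refine ENNReal.tendsto_nhds_zero.2 fun η hη => ?_
  obtain ⟨ε, hε, hεη⟩ : ∃ ε > 0, 6 * (ENNReal.ofReal (ε ^ 2) * ENNReal.ofReal C) ≤ η / 2 := by
    have t1 : Tendsto (fun ε : ℝ => ENNReal.ofReal (6 * (ε ^ 2 * C))) (𝓝[>] 0) (𝓝 0) := by
      have : Continuous fun ε : ℝ => ENNReal.ofReal (6 * (ε ^ 2 * C)) :=
        ENNReal.continuous_ofReal.comp (by fun_prop)
      simpa using (this.tendsto 0).mono_left nhdsWithin_le_nhds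
    obtain ⟨ε, h1, h2⟩ := ((t1.eventually (ge_mem_nhds (ENNReal.half_pos hη.ne'))).and
      self_mem_nhdsWithin).exists
    refine ⟨ε, h2, le_trans (le_of_eq ?_) h1⟩
    rw [ENNReal.ofReal_mul (by norm_num), ENNReal.ofReal_mul (sq_nonneg _)]
    simp
  have hA : ∀ n, Measurable (avg μ ε (φ n)) := fun n => avg_meas μ ε hε (hφ n).continuous
  have t2 : Tendsto (fun p : ℕ × ℕ => ∫⁻ x in closedBall 0 R,
      ENNReal.ofReal (3 * (avg μ ε (φ (κ p.1)) x - avg μ ε (φ (κ p.2)) x) ^ 2) ∂μ) atTop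
      (𝓝 (∫⁻ _ in closedBall (0 : E) R, 0 ∂μ)) := by
    refine tendsto_lintegral_filter_of_dominated_convergence
      (fun _ => ENNReal.ofReal (12 * ((μ (ball 0 ε))⁻¹.toReal * C)))
      (Eventually.of_forall fun p => by have := hA; fun_prop)
      (Eventually.of_forall fun p => Eventually.of_forall fun x => ?_) ?_
      (Eventually.of_forall fun x => ?_)
    · refine ENNReal.ofReal_le_ofReal ?_
      have b : ∀ n, avg μ ε (φ n) x ^ 2 ≤ (μ (ball 0 ε))⁻¹.toReal * C := fun n =>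
        (avg_bound μ hε (hm n) x).trans (by gcongr; exact h2 n)
      nlinarith [b (κ p.1), b (κ p.2),
        sq_nonneg (avg μ ε (φ (κ p.1)) x + avg μ ε (φ (κ p.2)) x)]
    · simp only [lintegral_const, MeasurableSet.univ, Measure.restrict_apply, univ_inter]
      exact ENNReal.mul_ne_top ENNReal.ofReal_ne_top measure_closedBall_lt_top.ne
    · obtain ⟨l, hl⟩ := hw x ε
      have a1 : Tendsto (fun p : ℕ × ℕ => p.1) atTop atTop := by
        rw [← prod_atTop_atTop_eq]; exact tendsto_fst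
      have a2 : Tendsto (fun p : ℕ × ℕ => p.2) atTop atTop := by
        rw [← prod_atTop_atTop_eq]; exact tendsto_snd
      have := ENNReal.tendsto_ofReal ((((hl.comp a1).sub (hl.comp a2)).pow 2).const_mul 3)
      simpa using this
  rw [lintegral_zero] at t2
  filter_upwards [t2.eventually (ge_mem_nhds (ENNReal.half_pos hη.ne'))] with p hp
  set a := φ (κ p.1)
  set b := φ (κ p.2)
  have hac : Continuous a := (hφ _).continuous
  have hbc : Continuous b := (hφ _).continuous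
  have hAa : Measurable (avg μ ε a) := hA _
  have hAb : Measurable (avg μ ε b) := hA _
  have e1 : ∫⁻ x, ENNReal.ofReal ((a x - b x) ^ 2) ∂μ ≤ ∫⁻ x,
      (3 * ENNReal.ofReal ((avg μ ε a x - a x) ^ 2) + 3 * ENNReal.ofReal ((avg μ ε b x - b x) ^ 2)
      + (closedBall 0 R).indicator
        (fun x => ENNReal.ofReal (3 * (avg μ ε a x - avg μ ε b x) ^ 2)) x) ∂μ := by
    refine lintegral_mono fun x => ?_
    by_cases hx : x ∈ closedBall (0 : E) R
    · rw [indicator_of_mem hx, ← ENNReal.ofReal_ofNat 3, ← ENNReal.ofReal_mul (by norm_num),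
        ← ENNReal.ofReal_mul (by norm_num), ← ENNReal.ofReal_add (by positivity) (by positivity),
        ← ENNReal.ofReal_add (by positivity) (by positivity)]
      refine ENNReal.ofReal_le_ofReal ?_
      nlinarith [sq_nonneg (avg μ ε a x - a x + (avg μ ε b x - b x)),
        sq_nonneg (avg μ ε a x - a x + (avg μ ε a x - avg μ ε b x)),
        sq_nonneg (avg μ ε b x - b x - (avg μ ε a x - avg μ ε b x))]
    · have ha : a x = 0 := by_contra fun h => hx (hR (hsupp _ h))
      have hb : b x = 0 := by_contra fun h => hx (hR (hsupp _ h))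
      simp [ha, hb]
  refine e1.trans ?_
  rw [lintegral_add_left (by fun_prop), lintegral_add_left (by fun_prop),
    lintegral_const_mul' _ _ (by simp), lintegral_const_mul' _ _ (by simp),
    lintegral_indicator measurableSet_closedBall, ← ENNReal.add_halves η]
  refine add_le_add (le_trans ?_ hεη) hp
  have b : ∀ n, ∫⁻ x, ENNReal.ofReal ((avg μ ε (φ n) x - φ n x) ^ 2) ∂μ
      ≤ ENNReal.ofReal (ε ^ 2) * ENNReal.ofReal C := fun n =>
    (avg_est μ hε (hφ n) (hcs n)).trans (by gcongr; exact hDl n)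
  calc _ ≤ 3 * (ENNReal.ofReal (ε ^ 2) * ENNReal.ofReal C)
        + 3 * (ENNReal.ofReal (ε ^ 2) * ENNReal.ofReal C) := by
        gcongr
        · exact b _
        · exact b _
    _ = _ := by ring

end Pool.Agent.Lib.helper10.Rellich
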