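import Mathlib

namespace Pool.Agent.Lib.helper10.VarDefs

/-- The algebra `A` satisfies every identity of `S`. -/
def Sat {k : Type} [CommRing k] (S : Set (FreeNonUnitalNonAssocAlgebra k ℕ)) (A : Type)
    [NonUnitalNonAssocRing A] [Module k A] [IsScalarTower k A A] [SMulCommClass k A A] : Prop :=
  ∀ f ∈ S, ∀ a : ℕ → A, FreeNonUnitalNonAssocAlgebra.lift k a f = 0

end Pool.Agent.Lib.helper10.VarDefs
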