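import Mathlib
import Pool.Agent.Lib.helper10.VarDefs

namespace Pool.Agent.Lib.helper10.RelFree
open FreeNonUnitalNonAssocAlgebra Pool.Agent.Lib.helper10.VarDefs

variable {k : Type} [CommRing k] (S : Set (FreeNonUnitalNonAssocAlgebra k ℕ)) (X : Type)

noncomputable def T : Submodule k (FreeNonUnitalNonAssocAlgebra k X) where
  carrier := {g | ∀ (A : Type) [NonUnitalNonAssocRing A] [Module k A] [IsScalarTower k A A]
    [SMulCommClass k A A], Sat S A → ∀ a : X → A, lift k a g = 0}
  add_mem' := fun hg hh A _ _ _ _ hA a => by rw [map_add, hg A hA a, hh A hA a, add_zero]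
  zero_mem' := fun A _ _ _ _ _ a => map_zero _
  smul_mem' := fun c g hg A _ _ _ _ hA a => by rw [map_smul, hg A hA a, smul_zero]

def B : Type := FreeNonUnitalNonAssocAlgebra k X ⧸ T S X

noncomputable instance : AddCommGroup (B S X) :=
  inferInstanceAs (AddCommGroup (FreeNonUnitalNonAssocAlgebra k X ⧸ T S X))
noncomputable instance : Module k (B S X) :=
  inferInstanceAs (Module k (FreeNonUnitalNonAssocAlgebra k X ⧸ T S X))

noncomputable def mk : FreeNonUnitalNonAssocAlgebra k X →ₗ[k] B S X := (T S X).mkQ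

noncomputable def mu : B S X →ₗ[k] B S X →ₗ[k] B S X :=
  LinearMap.liftQ₂ (T S X) (T S X) ((LinearMap.mul k _).compr₂ (mk S X))
    (fun g hg => by
      refine LinearMap.ext (fun h => ?_)
      refine (Submodule.Quotient.mk_eq_zero (T S X)).mpr (fun A _ _ _ _ hA a => ?_)
      show lift k a (g * h) = 0
      rw [map_mul, hg A hA a, zero_mul])
    (fun g hg => by
      refine LinearMap.ext (fun h => ?_)
      refine (Submodule.Quotient.mk_eq_zero (T S X)).mpr (fun A _ _ _ _ hA a => ?_)
      show lift k a (h * g) = 0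
      rw [map_mul, hg A hA a, mul_zero])

noncomputable instance : NonUnitalNonAssocRing (B S X) where
  mul a b := mu S X a b
  left_distrib a b c := map_add (mu S X a) b c
  right_distrib a b c := LinearMap.map_add₂ (mu S X) a b c
  zero_mul a := LinearMap.map_zero₂ (mu S X) a
  mul_zero a := map_zero (mu S X a)

instance : IsScalarTower k (B S X) (B S X) := ⟨fun c a b => LinearMap.map_smul₂ (mu S X) c a b⟩
instance : SMulCommClass k (B S X) (B S X) := ⟨fun c a b => (map_smul (mu S X a) c b).symm⟩

noncomputable def pr : FreeNonUnitalNonAssocAlgebra k X →ₙₐ[k] B S X where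
  toFun := mk S X
  map_smul' := map_smul (mk S X)
  map_zero' := map_zero (mk S X)
  map_add' := map_add (mk S X)
  map_mul' _ _ := rfl

theorem pr_surj : Function.Surjective (pr S X) := Submodule.mkQ_surjective _

theorem pr_eq_zero (g : FreeNonUnitalNonAssocAlgebra k X) : pr S X g = 0 ↔ g ∈ T S X :=
  Submodule.Quotient.mk_eq_zero _

theorem sat : Sat S (B S X) := by
  intro f hf a
  choose b hb using fun i => pr_surj S X (a i)
  have : lift k a = (pr S X).comp (lift k b) := by
    apply FreeNonUnitalNonAssocAlgebra.hom_ext; intro i; simp [hb]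
  rw [this]
  refine (pr_eq_zero S X _).mpr (fun A _ _ _ _ hA c => ?_)
  have e : (lift k c).comp (lift k b) = lift k (fun i => lift k c (b i)) := by
    apply FreeNonUnitalNonAssocAlgebra.hom_ext; intro i; simp
  have := hA f hf (fun i => lift k c (b i))
  rw [← e] at this
  exact this

theorem hom_ext {A : Type} [NonUnitalNonAssocRing A] [Module k A] [IsScalarTower k A A]
    [SMulCommClass k A A] (φ ψ : B S X →ₙₐ[k] A)
    (h : ∀ i, φ (pr S X (of k i)) = ψ (pr S X (of k i))) : φ = ψ := by
  have : φ.comp (pr S X) = ψ.comp (pr S X) := FreeNonUnitalNonAssocAlgebra.hom_ext k h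
  ext b
  obtain ⟨g, rfl⟩ := pr_surj S X b
  exact DFunLike.congr_fun this g

theorem univ {A : Type} [NonUnitalNonAssocRing A] [Module k A] [IsScalarTower k A A]
    [SMulCommClass k A A] (hA : Sat S A) (a : X → A) :
    ∃ φ : B S X →ₙₐ[k] A, ∀ i, φ (pr S X (of k i)) = a i := by
  let L0 : FreeNonUnitalNonAssocAlgebra k X →ₗ[k] A :=
    { toFun := lift k a, map_add' := map_add _, map_smul' := map_smul _ }
  let L : B S X →ₗ[k] A := (T S X).liftQ L0 (fun g hg => hg A hA a)
  have hL : ∀ g, L (pr S X g) = lift k a g := fun g => rfl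
  refine ⟨{ toFun := L, map_smul' := map_smul L, map_zero' := map_zero L, map_add' := map_add L
            map_mul' := fun u v => ?_ }, fun i => ?_⟩
  · obtain ⟨g, rfl⟩ := pr_surj S X u
    obtain ⟨h, rfl⟩ := pr_surj S X v
    rw [← map_mul, hL, hL, hL, map_mul]
  · exact (hL _).trans (lift_of_apply _ _ _)

end Pool.Agent.Lib.helper10.RelFree
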