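import Mathlib

/-! Right-handed crossed products, skew polynomial rings, principal right ideal rings. -/

namespace Pool.Agent.Lib.helper10.Crossed

structure Dat (M B : Type) [AddCommMonoid M] [Ring B] where
  act : M → B →+* B
  w : M → M → B
  act0 : ∀ r, act 0 r = r
  w0l : ∀ a, w 0 a = 1
  w0r : ∀ a, w a 0 = 1
  comm : ∀ b c r, w b c * act c (act b r) = act (b + c) r * w b c
  coc : ∀ a b c, w (a + b) c * act c (w a b) = w a (b + c) * w b c

variable {M B : Type} [AddCommMonoid M] [Ring B]

def CP (_d : Dat M B) : Type := M →₀ B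

variable {d : Dat M B}

noncomputable instance : AddCommGroup (CP d) := inferInstanceAs (AddCommGroup (M →₀ B))

noncomputable def sg (d : Dat M B) (a : M) (r : B) : CP d := Finsupp.single a r

def toF (f : CP d) : M →₀ B := f

noncomputable def mulH (d : Dat M B) : (M →₀ B) →+ (M →₀ B) →+ (M →₀ B) :=
  Finsupp.liftAddHom fun a => AddMonoidHom.mk' (fun r => Finsupp.liftAddHom fun b =>
    AddMonoidHom.mk' (fun s => Finsupp.single (a + b) (d.w a b * d.act b r * s))
      (fun s s' => by rw [mul_add, Finsupp.single_add])) (fun r r' => by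
    ext b s m
    simp [mul_add, add_mul])

theorem mulH_single (a b : M) (r s : B) : mulH d (Finsupp.single a r) (Finsupp.single b s) =
    Finsupp.single (a + b) (d.w a b * d.act b r * s) := by
  simp [mulH]

theorem mulH_assoc (f g h : M →₀ B) : mulH d (mulH d f g) h = mulH d f (mulH d g h) := by
  induction f using Finsupp.induction_linear with
  | zero => simp
  | add f f' h1 h2 => simp only [map_add, AddMonoidHom.add_apply, h1, h2]
  | single a r =>
    induction g using Finsupp.induction_linear with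
    | zero => simp
    | add g g' h1 h2 => simp only [map_add, AddMonoidHom.add_apply, h1, h2]
    | single b s =>
      induction h using Finsupp.induction_linear with
      | zero => simp
      | add h h' h1 h2 => simp only [map_add, h1, h2]
      | single c t =>
        simp only [mulH_single, add_assoc, map_mul]
        congr 1
        calc _ = (d.w (a + b) c * d.act c (d.w a b)) * d.act c (d.act b r) * d.act c s * t := by
              simp only [mul_assoc]
          _ = d.w a (b + c) * (d.w b c * d.act c (d.act b r)) * d.act c s * t := by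
              rw [d.coc]; simp only [mul_assoc]
          _ = _ := by rw [d.comm]; simp only [mul_assoc]

noncomputable instance : Ring (CP d) :=
  { (inferInstance : AddCommGroup (CP d)) with
    mul := fun f g => mulH d f g
    one := sg d 0 1
    left_distrib := fun f g h => map_add (mulH d f) g h
    right_distrib := fun f g h => DFunLike.congr_fun (map_add (mulH d) f g) h
    zero_mul := fun f => DFunLike.congr_fun (map_zero (mulH d)) f
    mul_zero := fun f => map_zero (mulH d f)
    mul_assoc := mulH_assoc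
    one_mul := fun f => by
      change mulH d (Finsupp.single 0 1) f = f
      induction f using Finsupp.induction_linear with
      | zero => simp
      | add f f' h1 h2 => exact (map_add _ f f').trans (by rw [h1, h2])
      | single a r => rw [mulH_single]; simp [d.w0l]
    mul_one := fun f => by
      change mulH d f (Finsupp.single 0 1) = f
      induction f using Finsupp.induction_linear with
      | zero => simp
      | add f f' h1 h2 =>
        exact (DFunLike.congr_fun (map_add (mulH d) f f') _).trans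
          (by rw [AddMonoidHom.add_apply, h1, h2])
      | single a r => rw [mulH_single]; simp [d.w0r, d.act0] }

theorem sg_mul (a b : M) (r s : B) : sg d a r * sg d b s = sg d (a + b) (d.w a b * d.act b r * s) :=
  mulH_single a b r s

theorem sg_add (a : M) (r s : B) : sg d a (r + s) = sg d a r + sg d a s := Finsupp.single_add _ _ _

theorem sg_zero (a : M) : sg d a 0 = 0 := Finsupp.single_zero _

theorem sg_neg (a : M) (r : B) : sg d a (-r) = -sg d a r := Finsupp.single_neg _ _

theorem one_def : (1 : CP d) = sg d 0 1 := rfl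

theorem ind {P : CP d → Prop} (h0 : P 0) (ha : ∀ f g, P f → P g → P (f + g))
    (hs : ∀ a r, P (sg d a r)) (f : CP d) : P f :=
  Finsupp.induction_linear (M := B) (motive := P) f h0 ha hs

theorem toF_add (f g : CP d) : toF (f + g) = toF f + toF g := rfl
theorem toF_sub (f g : CP d) : toF (f - g) = toF f - toF g := rfl
theorem toF_neg (f : CP d) : toF (-f) = -toF f := rfl
theorem toF_zero : toF (0 : CP d) = 0 := rfl
theorem toF_sg (a : M) (r : B) : toF (sg d a r) = Finsupp.single a r := rfl
theorem ext' {f g : CP d} (h : ∀ a, toF f a = toF g a) : f = g := Finsupp.ext h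

theorem toF_mul (f g : CP d) : toF (f * g) = ∑ a ∈ (toF f).support, ∑ b ∈ (toF g).support,
    Finsupp.single (a + b) (d.w a b * d.act b (toF f a) * toF g b) := by
  change mulH d (toF f) (toF g) = _
  conv_lhs => rw [← Finsupp.sum_single (toF f), ← Finsupp.sum_single (toF g)]
  simp only [Finsupp.sum, map_sum, AddMonoidHom.finsetSum_apply, mulH_single]
  exact Finset.sum_comm

theorem supp_mul {f g : CP d} {m : M} (h : toF (f * g) m ≠ 0) :
    ∃ a b, toF f a ≠ 0 ∧ toF g b ≠ 0 ∧ a + b = m := by
  classical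
  rw [toF_mul, Finsupp.finsetSum_apply] at h
  obtain ⟨a, ha, h⟩ := Finset.exists_ne_zero_of_sum_ne_zero h
  rw [Finsupp.finsetSum_apply] at h
  obtain ⟨b, hb, h⟩ := Finset.exists_ne_zero_of_sum_ne_zero h
  refine ⟨a, b, Finsupp.mem_support_iff.mp ha, Finsupp.mem_support_iff.mp hb, ?_⟩
  by_contra hc
  exact h (Finsupp.single_eq_of_ne' hc)

theorem co_unique {f g : CP d} {a b : M} (h : UniqueAdd (toF f).support (toF g).support a b) :
    toF (f * g) (a + b) = d.w a b * d.act b (toF f a) * toF g b := by
  classical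
  rw [toF_mul, Finsupp.finsetSum_apply, Finset.sum_eq_single a, Finsupp.finsetSum_apply,
    Finset.sum_eq_single b, Finsupp.single_eq_same]
  · intro b' hb' hne
    by_cases ha : a ∈ (toF f).support
    · exact Finsupp.single_eq_of_ne' fun e => hne (h ha hb' e).2
    · simp [Finsupp.notMem_support_iff.mp ha]
  · intro hb; simp [Finsupp.notMem_support_iff.mp hb]
  · intro a' ha' hne
    rw [Finsupp.finsetSum_apply]
    exact Finset.sum_eq_zero fun b' hb' => Finsupp.single_eq_of_ne' fun e => hne (h ha' hb' e).1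
  · intro ha; simp [Finsupp.notMem_support_iff.mp ha]

theorem noZero [NoZeroDivisors B] [UniqueSums M] (hw : ∀ a b, d.w a b ≠ 0)
    (hi : ∀ a r, d.act a r = 0 → r = 0) : NoZeroDivisors (CP d) := by
  constructor
  intro f g h
  by_contra hc
  rw [not_or] at hc
  obtain ⟨a, ha, b, hb, hu⟩ := UniqueSums.uniqueAdd_of_nonempty
    (Finsupp.support_nonempty_iff.mpr (show toF f ≠ 0 from hc.1))
    (Finsupp.support_nonempty_iff.mpr (show toF g ≠ 0 from hc.2))
  have := co_unique hu
  rw [h, toF_zero, Finsupp.zero_apply] at this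
  exact mul_ne_zero (mul_ne_zero (hw a b) fun e => Finsupp.mem_support_iff.mp ha (hi _ _ e))
    (Finsupp.mem_support_iff.mp hb) this.symm

theorem nontriv [Nontrivial B] : Nontrivial (CP d) :=
  ⟨1, 0, fun h => one_ne_zero (Finsupp.single_eq_zero.mp h)⟩

noncomputable def cst (d : Dat M B) : B →+* CP d where
  toFun r := sg d 0 r
  map_one' := rfl
  map_zero' := sg_zero 0
  map_add' := sg_add 0
  map_mul' r s := by rw [sg_mul]; simp [d.w0l, d.act0]

theorem cst_def (r : B) : cst d r = sg d 0 r := rfl

noncomputable def liftA (d : Dat M B) {T : Type} [Ring T] (φ : M → B →+ T) : CP d →+ T :=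
  Finsupp.liftAddHom φ

theorem liftA_sg {T : Type} [Ring T] (φ : M → B →+ T) (a : M) (r : B) :
    liftA d φ (sg d a r) = φ a r := Finsupp.liftAddHom_apply_single φ a r

noncomputable def lift {T : Type} [Ring T] (φ : M → B →+ T) (h1 : φ 0 1 = 1)
    (hm : ∀ a b r s, φ (a + b) (d.w a b * d.act b r * s) = φ a r * φ b s) : CP d →+* T :=
  { liftA d φ with
    map_one' := (liftA_sg φ 0 1).trans h1
    map_mul' := fun f g => by
      change liftA d φ (f * g) = liftA d φ f * liftA d φ g
      induction f using ind with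
      | h0 => simp
      | ha f f' a1 a2 => simp only [add_mul, map_add, a1, a2]
      | hs a r =>
        induction g using ind with
        | h0 => simp
        | ha g g' a1 a2 => simp only [mul_add, map_add, a1, a2]
        | hs b s => rw [sg_mul, liftA_sg, liftA_sg, liftA_sg, hm] }

theorem lift_sg {T : Type} [Ring T] (φ : M → B →+ T) (h1 : φ 0 1 = 1)
    (hm : ∀ a b r s, φ (a + b) (d.w a b * d.act b r * s) = φ a r * φ b s) (a : M) (r : B) :
    lift φ h1 hm (sg d a r) = φ a r := liftA_sg φ a r

/-- data of the skew polynomial ring with r x = x τ(r) -/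
def sp (τ : B →+* B) : Dat ℕ B where
  act n := τ ^ n
  w _ _ := 1
  act0 _ := rfl
  w0l _ := rfl
  w0r _ := rfl
  comm b c r := by rw [one_mul, mul_one, add_comm, pow_add]; rfl
  coc a b c := by simp

def PRI (B : Type) [Ring B] : Prop := ∀ I : AddSubmonoid B, (∀ x r : B, x ∈ I → x * r ∈ I) →
  ∃ a : B, ∀ x : B, x ∈ I ↔ ∃ r : B, x = a * r

variable {τ : B →+* B}

theorem sp_mul (a b : ℕ) (r s : B) :
    sg (sp τ) a r * sg (sp τ) b s = sg (sp τ) (a + b) ((τ ^ b) r * s) := by
  rw [sg_mul]; simp [sp]

theorem co_mul_sg (f : CP (sp τ)) (i j : ℕ) (s : B) :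
    toF (f * sg (sp τ) j s) (i + j) = (τ ^ j) (toF f i) * s := by
  induction f using ind with
  | h0 => simp [toF_zero]
  | ha f g a1 a2 => simp only [add_mul, toF_add, Finsupp.add_apply, a1, a2, map_add]
  | hs a r =>
    rw [sp_mul, toF_sg, toF_sg]
    by_cases h : a = i
    · subst h; simp
    · rw [Finsupp.single_eq_of_ne' (by omega), Finsupp.single_eq_of_ne' h]; simp

theorem sp_noZero [NoZeroDivisors B] [Nontrivial B] (hi : ∀ r, τ r = 0 → r = 0) :
    NoZeroDivisors (CP (sp τ)) := by
  refine noZero (fun _ _ => one_ne_zero) fun n => ?_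
  change ∀ r, (τ ^ n) r = 0 → r = 0
  induction n with
  | zero => exact fun r h => h
  | succ n ih => intro r h; rw [pow_succ] at h; exact hi r (ih _ h)

theorem sp_pri (hB : PRI B) (hu : ∀ r, r ≠ 0 → IsUnit (τ r)) : PRI (CP (sp τ)) := by
  classical
  intro I hI
  by_cases h0 : ∃ n, ∃ f ∈ I, f ≠ 0 ∧ ∀ i, n < i → toF f i = 0
  swap
  · refine ⟨0, fun x => ⟨fun hx => ⟨0, ?_⟩, ?_⟩⟩
    · by_contra hne
      rw [mul_zero] at hne
      refine h0 ⟨(toF x).support.sup id, x, hx, hne, fun i hi => ?_⟩
      by_contra hc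
      have : i ≤ (toF x).support.sup id := Finset.le_sup (f := id) (Finsupp.mem_support_iff.mpr hc)
      omega
    · rintro ⟨r, rfl⟩; rw [zero_mul]; exact I.zero_mem
  set n := Nat.find h0 with hn
  have low : ∀ f ∈ I, (∀ i, n ≤ i → toF f i = 0) → f = 0 := by
    intro f hf h
    by_contra hne
    rcases Nat.eq_zero_or_pos n with h1 | h1
    · exact hne (ext' fun i => h i (by omega))
    · exact Nat.find_min h0 (show n - 1 < Nat.find h0 by omega) ⟨f, hf, hne, fun i hi => h i (by omega)⟩
  have top : ∀ (f : CP (sp τ)) j s, (∀ i, n < i → toF f i = 0) →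
      ∀ i, n + j < i → toF (f * sg (sp τ) j s) i = 0 := by
    intro f j s h i hi
    rw [show i = (i - j) + j by omega, co_mul_sg, h _ (by omega), map_zero, zero_mul]
  obtain ⟨c, hc⟩ := hB
    { carrier := {c | ∃ f ∈ I, (∀ i, n < i → toF f i = 0) ∧ toF f n = c}
      zero_mem' := ⟨0, I.zero_mem, fun _ _ => rfl, rfl⟩
      add_mem' := by
        rintro _ _ ⟨f, a1, a2, rfl⟩ ⟨g, b1, b2, rfl⟩
        exact ⟨f + g, I.add_mem a1 b1, fun i hi => by
          rw [toF_add, Finsupp.add_apply, a2 i hi, b2 i hi, add_zero], rfl⟩ } (by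
    rintro _ r ⟨f, a1, a2, rfl⟩
    exact ⟨f * sg _ 0 r, hI _ _ a1, top f 0 r a2, co_mul_sg f n 0 r⟩)
  obtain ⟨f, f1, f2, f3⟩ := (hc c).mpr ⟨1, (mul_one c).symm⟩
  have c0 : c ≠ 0 := by
    rintro rfl
    obtain ⟨g, g1, g2, g3⟩ := Nat.find_spec h0
    obtain ⟨r, hr⟩ := (hc (toF g n)).mp ⟨g, g1, g3, rfl⟩
    refine g2 (low g g1 fun i hi => ?_)
    rcases hi.eq_or_lt with rfl | hi
    · rw [hr, zero_mul]
    · exact g3 i hi
  have un : ∀ j, IsUnit ((τ ^ (j + 1)) c) := fun j => by
    rw [pow_succ]; exact (hu c c0).map (τ ^ j)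
  have key : ∀ m, ∀ g ∈ I, (∀ i, m ≤ i → toF g i = 0) → ∃ r, g = f * r := by
    intro m
    induction m with
    | zero => intro g _ h; exact ⟨0, by rw [mul_zero]; exact ext' fun i => h i (by omega)⟩
    | succ m ih =>
      intro g hg h
      by_cases hm : m < n
      · exact ⟨0, by rw [mul_zero]; exact low g hg fun i hi => h i (by omega)⟩
      obtain ⟨j, rfl⟩ := Nat.exists_eq_add_of_le (not_lt.mp hm)
      obtain ⟨s, hs⟩ : ∃ s, (τ ^ j) c * s = toF g (n + j) := by
        rcases j with _ | j
        · obtain ⟨r, hr⟩ := (hc (toF g n)).mp ⟨g, hg, fun i hi => h i (by omega), rfl⟩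
          exact ⟨r, hr.symm⟩
        · obtain ⟨u, hu'⟩ := un j
          exact ⟨↑u⁻¹ * toF g (n + (j + 1)), by rw [← hu', Units.mul_inv_cancel_left]⟩
      obtain ⟨r, hr⟩ := ih (g + f * (-sg _ j s)) (I.add_mem hg (hI _ _ f1)) (by
        intro i hi
        rw [mul_neg, toF_add, toF_neg, Finsupp.add_apply, Finsupp.neg_apply]
        rcases hi.eq_or_lt with rfl | hi
        · rw [co_mul_sg, f3, hs, add_neg_cancel]
        · rw [h i (by omega), top f j s f2 i hi, neg_zero, add_zero])
      exact ⟨r + sg _ j s, by rw [mul_add, ← hr, mul_neg, neg_add_cancel_right]⟩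
  refine ⟨f, fun x => ⟨fun hx => key ((toF x).support.sup id + 1) x hx fun i hi => ?_, ?_⟩⟩
  · by_contra hc
    have : i ≤ (toF x).support.sup id := Finset.le_sup (f := id) (Finsupp.mem_support_iff.mpr hc)
    omega
  · rintro ⟨r, rfl⟩; exact hI _ _ f1

theorem pri_div (K : Type) [DivisionRing K] : PRI K := by
  intro I hI
  by_cases h : ∃ a ∈ I, a ≠ 0
  · obtain ⟨a, ha, h0⟩ := h
    refine ⟨1, fun x => ⟨fun _ => ⟨x, (one_mul x).symm⟩, fun _ => ?_⟩⟩
    have := hI a (a⁻¹ * x) ha
    rwa [mul_inv_cancel_left₀ h0] at this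
  · push Not at h
    refine ⟨0, fun x => ⟨fun hx => ⟨0, by rw [h x hx, mul_zero]⟩, ?_⟩⟩
    rintro ⟨r, rfl⟩; rw [zero_mul]; exact I.zero_mem

end Pool.Agent.Lib.helper10.Crossed
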