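import Mathlib

namespace Pool.Agent.Lib.helper10.Dist

variable {V : Type}

lemma walk_of (G : SimpleGraph V) (D : V → V → ℕ)
    (h2 : ∀ u v, v ≠ u → ∃ w, G.Adj v w ∧ D w u + 1 = D v u) (u : V) :
    ∀ k v, D v u = k → ∃ p : G.Walk v u, p.length ≤ k := by
  intro k
  induction k with
  | zero =>
    intro v hv
    by_cases e : v = u
    · subst e; exact ⟨SimpleGraph.Walk.nil, by simp⟩
    · obtain ⟨w, -, hw⟩ := h2 u v e
      omega
  | succ k ih =>
    intro v hv
    by_cases e : v = u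
    · subst e; exact ⟨SimpleGraph.Walk.nil, by simp⟩
    · obtain ⟨w, hw1, hw⟩ := h2 u v e
      obtain ⟨p, hp⟩ := ih w (by omega)
      exact ⟨SimpleGraph.Walk.cons hw1 p, by simp [hp]⟩

lemma dist_eq (G : SimpleGraph V) (D : V → V → ℕ) (h0 : ∀ u, D u u = 0)
    (h1 : ∀ u v w, G.Adj v w → D v u ≤ D w u + 1)
    (h2 : ∀ u v, v ≠ u → ∃ w, G.Adj v w ∧ D w u + 1 = D v u) (u v : V) : G.dist v u = D v u := by
  have b : ∀ x y (p : G.Walk x y), D x y ≤ p.length := by
    intro x y p
    induction p with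
    | nil => simp [h0]
    | cons h p ih => exact (h1 _ _ _ h).trans (by simpa using ih)
  obtain ⟨p, hp⟩ := walk_of G D h2 u _ v rfl
  refine le_antisymm ((SimpleGraph.dist_le p).trans hp) ?_
  obtain ⟨q, hq⟩ := (p.reachable).exists_walk_length_eq_dist
  exact hq ▸ b _ _ q

lemma conn_of (G : SimpleGraph V) (r : V) (R : V → ℕ)
    (h : ∀ v, v ≠ r → ∃ w, G.Adj v w ∧ R w < R v) : G.Connected := by
  have a : ∀ k v, R v = k → G.Reachable v r := by
    intro k
    induction k using Nat.strong_induction_on with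
    | _ k ih =>
      intro v hv
      by_cases e : v = r
      · subst e; rfl
      · obtain ⟨w, hw1, hw⟩ := h v e
        exact hw1.reachable.trans (ih _ (hv ▸ hw) w rfl)
  have : Nonempty V := ⟨r⟩
  exact ⟨fun u v => (a _ u rfl).trans (a _ v rfl).symm⟩

end Pool.Agent.Lib.helper10.Dist
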