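import Pool.Agent.Lib.helper10.Rellich

set_option linter.unusedSectionVars false
set_option linter.dupNamespace false

/-! The Sobolev space `H^1_0(Ω)` as a closure of test functions in `L² × L²`. -/

namespace Pool.Agent.Lib.helper10.H10

open MeasureTheory Filter Topology Set Metric
open scoped ENNReal NNReal

abbrev E (N : ℕ) := EuclideanSpace ℝ (Fin N)

abbrev X (N : ℕ) := Lp ℝ 2 (volume : Measure (E N)) × Lp (E N) 2 (volume : Measure (E N))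

variable {N : ℕ}

/-- Test functions `C_0^∞(Ω)`. -/
def Test (Ω : Set (E N)) (φ : E N → ℝ) : Prop :=
  ContDiff ℝ (⊤ : ℕ∞) φ ∧ HasCompactSupport φ ∧ tsupport φ ⊆ Ω

/-- `H^1_0(Ω)`: the closure in `L² × L²` of the pairs `(φ, ∇φ)`, `φ` a test function. -/
def H10 (Ω : Set (E N)) : Set (X N) :=
  closure {p | ∃ φ, Test Ω φ ∧ p.1 =ᵐ[volume] φ ∧ p.2 =ᵐ[volume] gradient φ}

variable {Ω : Set (E N)} {φ ψ : E N → ℝ}

lemma Test.c1 (h : Test Ω φ) : ContDiff ℝ 1 φ := h.1.of_le (by exact_mod_cast le_top)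

lemma Test.cont (h : Test Ω φ) : Continuous φ := h.1.continuous

lemma Test.diff (h : Test Ω φ) : Differentiable ℝ φ := h.c1.differentiable one_ne_zero

lemma Test.memLp (h : Test Ω φ) (p : ℝ≥0∞) : MemLp φ p volume :=
  h.cont.memLp_of_hasCompactSupport h.2.1

lemma Test.memLp_fderiv (h : Test Ω φ) (p : ℝ≥0∞) : MemLp (fderiv ℝ φ) p volume :=
  (h.c1.continuous_fderiv one_ne_zero).memLp_of_hasCompactSupport (h.2.1.fderiv ℝ)

lemma norm_gradient (φ : E N → ℝ) (x : E N) : ‖gradient φ x‖ = ‖fderiv ℝ φ x‖ := by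
  simp [gradient]

lemma Test.cont_grad (h : Test Ω φ) : Continuous (gradient φ) :=
  (InnerProductSpace.toDual ℝ (E N)).symm.continuous.comp (h.c1.continuous_fderiv one_ne_zero)

lemma Test.memLp_grad (h : Test Ω φ) (p : ℝ≥0∞) : MemLp (gradient φ) p volume :=
  (h.memLp_fderiv p).congr_norm h.cont_grad.aestronglyMeasurable
    (Eventually.of_forall fun x => (norm_gradient φ x).symm)

lemma Test.mono {Ω' : Set (E N)} (h : Test Ω φ) (h' : Ω ⊆ Ω') : Test Ω' φ :=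
  ⟨h.1, h.2.1, h.2.2.trans h'⟩

lemma Test.add (h : Test Ω φ) (h' : Test Ω ψ) : Test Ω (φ + ψ) :=
  ⟨h.1.add h'.1, h.2.1.add h'.2.1, (tsupport_add φ ψ).trans (union_subset h.2.2 h'.2.2)⟩

lemma Test.smul (h : Test Ω φ) (c : ℝ) : Test Ω (c • φ) :=
  ⟨h.1.const_smul c, h.2.1.smul_left (f := fun _ => c),
    (tsupport_smul_subset_right (fun _ => c) φ).trans h.2.2⟩

lemma test_zero : Test Ω 0 := ⟨contDiff_const, HasCompactSupport.zero, by simp⟩

lemma Test.grad_add (h : Test Ω φ) (h' : Test Ω ψ) :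
    gradient (φ + ψ) = gradient φ + gradient ψ := by
  ext1 x
  simp [gradient, fderiv_add (h.diff x) (h'.diff x)]

lemma Test.grad_smul (h : Test Ω φ) (c : ℝ) : gradient (c • φ) = c • gradient φ := by
  ext1 x
  simp [gradient, fderiv_const_smul (h.diff x)]

lemma Test.zero_off (h : Test Ω φ) {x : E N} (hx : x ∉ Ω) : φ x = 0 ∧ fderiv ℝ φ x = 0 :=
  ⟨image_eq_zero_of_notMem_tsupport fun h' => hx (h.2.2 h'),
    image_eq_zero_of_notMem_tsupport fun h' => hx (h.2.2 (tsupport_fderiv_subset ℝ h'))⟩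

lemma Test.comp (h : Test Ω φ) {G : ℝ → ℝ} (hG : ContDiff ℝ (⊤ : ℕ∞) G) (h0 : G 0 = 0) :
    Test Ω (G ∘ φ) :=
  ⟨hG.comp h.1, h.2.1.comp_left h0, (tsupport_comp_subset h0 φ).trans h.2.2⟩

def T (Ω : Set (E N)) : Submodule ℝ (X N) where
  carrier := {p | ∃ φ, Test Ω φ ∧ p.1 =ᵐ[volume] φ ∧ p.2 =ᵐ[volume] gradient φ}
  add_mem' := by
    rintro p q ⟨φ, h, h1, h2⟩ ⟨ψ, h', h1', h2'⟩
    refine ⟨φ + ψ, h.add h', (Lp.coeFn_add _ _).trans (h1.add h1'), ?_⟩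
    rw [h.grad_add h']
    exact (Lp.coeFn_add _ _).trans (h2.add h2')
  zero_mem' := ⟨0, test_zero, Lp.coeFn_zero _ _ _, by
    rw [show gradient (0 : E N → ℝ) = 0 from gradient_const' 0]; exact Lp.coeFn_zero _ _ _⟩
  smul_mem' := by
    rintro c p ⟨φ, h, h1, h2⟩
    refine ⟨c • φ, h.smul c, (Lp.coeFn_smul _ _).trans (h1.const_smul c), ?_⟩
    rw [h.grad_smul]
    exact (Lp.coeFn_smul _ _).trans (h2.const_smul c)

/-- `H^1_0(Ω)` as a submodule. -/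
noncomputable def Hs (Ω : Set (E N)) : Submodule ℝ (X N) := (T Ω).topologicalClosure

lemma mem_Hs {p : X N} : p ∈ Hs Ω ↔ p ∈ H10 Ω := Iff.rfl

instance : CompleteSpace (Hs Ω) := Submodule.topologicalClosure.completeSpace _

lemma H10_mono {Ω' : Set (E N)} (h : Ω ⊆ Ω') : H10 Ω ⊆ H10 Ω' :=
  closure_mono fun _ ⟨φ, h1, h2⟩ => ⟨φ, h1.mono h, h2⟩

noncomputable def pair (h : Test Ω φ) : Hs Ω :=
  ⟨((h.memLp 2).toLp _, (h.memLp_grad 2).toLp _),
    subset_closure ⟨φ, h, (h.memLp 2).coeFn_toLp, (h.memLp_grad 2).coeFn_toLp⟩⟩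

lemma pair_fst (h : Test Ω φ) : (pair h).1.1 =ᵐ[volume] φ := (h.memLp 2).coeFn_toLp

lemma pair_snd (h : Test Ω φ) : (pair h).1.2 =ᵐ[volume] gradient φ :=
  (h.memLp_grad 2).coeFn_toLp

lemma exists_seq (p : Hs Ω) : ∃ (φ : ℕ → E N → ℝ) (h : ∀ n, Test Ω (φ n)),
    Tendsto (fun n => pair (h n)) atTop (𝓝 p) := by
  obtain ⟨q, hq, hl⟩ := mem_closure_iff_seq_limit.1 p.2
  choose φ h h1 h2 using hq
  refine ⟨φ, h, tendsto_subtype_rng.2 (hl.congr fun n => ?_)⟩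
  exact Prod.ext (Lp.ext ((h1 n).trans (pair_fst (h n)).symm))
    (Lp.ext ((h2 n).trans (pair_snd (h n)).symm))

lemma dense_le {f g : Hs Ω → ℝ} (hf : Continuous f) (hg : Continuous g)
    (h : ∀ φ (hφ : Test Ω φ), f (pair hφ) ≤ g (pair hφ)) (p : Hs Ω) : f p ≤ g p := by
  obtain ⟨φ, hφ, hl⟩ := exists_seq p
  exact le_of_tendsto_of_tendsto' ((hf.tendsto p).comp hl) ((hg.tendsto p).comp hl)
    fun n => h _ (hφ n)

lemma zero_off (p : Hs Ω) : ∀ᵐ x ∂volume, x ∉ Ω → p.1.1 x = 0 ∧ p.1.2 x = 0 := by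
  obtain ⟨φ, hφ, hl⟩ := exists_seq p
  have h1 : Tendsto (fun n => (pair (hφ n)).1.1) atTop (𝓝 p.1.1) :=
    ((continuous_fst.comp continuous_subtype_val).tendsto p).comp hl
  have h2 : Tendsto (fun n => (pair (hφ n)).1.2) atTop (𝓝 p.1.2) :=
    ((continuous_snd.comp continuous_subtype_val).tendsto p).comp hl
  obtain ⟨κ1, -, k1⟩ := (tendstoInMeasure_of_tendsto_Lp h1).exists_seq_tendsto_ae
  obtain ⟨κ2, -, k2⟩ := (tendstoInMeasure_of_tendsto_Lp h2).exists_seq_tendsto_ae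
  filter_upwards [k1, k2, ae_all_iff.2 fun n => pair_fst (hφ n),
    ae_all_iff.2 fun n => pair_snd (hφ n)] with x a1 a2 a3 a4 hx
  simp only [a3, a4, ((hφ _).zero_off hx).1, gradient, ((hφ _).zero_off hx).2, map_zero] at a1 a2
  exact ⟨tendsto_nhds_unique a1 tendsto_const_nhds, tendsto_nhds_unique a2 tendsto_const_nhds⟩

/-- Dirichlet energy of a test function. -/
noncomputable def Dt (φ : E N → ℝ) : ℝ := ∫ x, ‖fderiv ℝ φ x‖ ^ 2

lemma Dt_nonneg (φ : E N → ℝ) : 0 ≤ Dt φ := integral_nonneg fun _ => sq_nonneg _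

lemma L2_norm_sq {F : Type*} [NormedAddCommGroup F] [InnerProductSpace ℝ F]
    (f : Lp F 2 (volume : Measure (E N))) : ‖f‖ ^ 2 = ∫ x, ‖f x‖ ^ 2 := by
  rw [← real_inner_self_eq_norm_sq, L2.inner_def]
  simp

lemma pair_norm_snd (h : Test Ω φ) : ‖(pair h).1.2‖ ^ 2 = Dt φ := by
  rw [L2_norm_sq]
  refine integral_congr_ae ?_
  filter_upwards [pair_snd h] with x hx
  rw [hx, norm_gradient]

lemma pair_norm_fst (h : Test Ω φ) : ‖(pair h).1.1‖ ^ 2 = ∫ x, φ x ^ 2 := by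
  rw [L2_norm_sq]
  refine integral_congr_ae ?_
  filter_upwards [pair_fst h] with x hx
  rw [hx, Real.norm_eq_abs, sq_abs]

lemma Dt_smul (h : Test Ω φ) (c : ℝ) : Dt (c • φ) = c ^ 2 * Dt φ := by
  unfold Dt
  rw [← integral_const_mul]
  congr 1
  ext x
  rw [fderiv_const_smul (h.diff x), norm_smul, mul_pow, Real.norm_eq_abs, sq_abs]

/-- Sobolev inequality on `H^1_0(Ω)`. -/
lemma sobolev (hN : 2 < N) (hΩ : Bornology.IsBounded Ω) (q : ℝ≥0)
    (hq : (2 : ℝ)⁻¹ - (N : ℝ)⁻¹ ≤ (q : ℝ)⁻¹) :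
    ∃ C : ℝ≥0, ∀ p : Hs Ω, eLpNorm p.1.1 q volume ≤ C * ‖p.1.2‖ₑ := by
  refine ⟨eLpNormLESNormFDerivOfLeConst ℝ (volume : Measure (E N)) Ω 2 q, fun p => ?_⟩
  set C := eLpNormLESNormFDerivOfLeConst ℝ (volume : Measure (E N)) Ω 2 q
  obtain ⟨φ, hφ, hl⟩ := exists_seq p
  have h1 : Tendsto (fun n => (pair (hφ n)).1.1) atTop (𝓝 p.1.1) :=
    ((continuous_fst.comp continuous_subtype_val).tendsto p).comp hl
  have h2 : Tendsto (fun n => (C : ℝ≥0∞) * ‖(pair (hφ n)).1.2‖ₑ) atTop (𝓝 (C * ‖p.1.2‖ₑ)) :=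
    ENNReal.Tendsto.const_mul
      (((continuous_snd.comp continuous_subtype_val).enorm.tendsto p).comp hl) (by simp)
  refine le_of_forall_gt_imp_ge_of_dense fun c hc => ?_
  refine eLpNorm_le_of_tendstoInMeasure ?_ (tendstoInMeasure_of_tendsto_Lp h1)
    fun n => Lp.aestronglyMeasurable _
  filter_upwards [h2.eventually (ge_mem_nhds hc)] with n hn
  refine le_trans ?_ hn
  rw [eLpNorm_congr_ae (pair_fst (hφ n))]
  refine (eLpNorm_le_eLpNorm_fderiv_of_le volume (hφ n).c1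
    (subset_closure.trans (hφ n).2.2) (p := 2) (by norm_num) (by simpa using hN)
    (by simpa using hq) hΩ).trans (le_of_eq ?_)
  congr 1
  rw [Lp.enorm_def, eLpNorm_congr_ae (pair_snd (hφ n))]
  exact eLpNorm_congr_norm_ae (Eventually.of_forall fun x => (norm_gradient _ x).symm)

lemma memLp_of_sobolev (hN : 2 < N) (hΩ : Bornology.IsBounded Ω) (q : ℝ≥0)
    (hq : (2 : ℝ)⁻¹ - (N : ℝ)⁻¹ ≤ (q : ℝ)⁻¹) (p : Hs Ω) : MemLp p.1.1 q volume := by
  obtain ⟨C, hC⟩ := sobolev hN hΩ q hq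
  exact ⟨Lp.aestronglyMeasurable _, (hC p).trans_lt (ENNReal.mul_lt_top (by simp) (by simp))⟩

/-- The continuous embedding into `L^q`. -/
lemma exists_J (hN : 2 < N) (hΩ : Bornology.IsBounded Ω) (q : ℝ≥0) [Fact (1 ≤ (q : ℝ≥0∞))]
    (hq : (2 : ℝ)⁻¹ - (N : ℝ)⁻¹ ≤ (q : ℝ)⁻¹) :
    ∃ (J : Hs Ω →L[ℝ] Lp ℝ q (volume : Measure (E N))) (C : ℝ),
      (∀ p, J p =ᵐ[volume] p.1.1) ∧ ∀ p, ‖J p‖ ≤ C * ‖p.1.2‖ := by
  obtain ⟨C, hC⟩ := sobolev hN hΩ q hq
  have hm := memLp_of_sobolev hN hΩ q hq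
  let J0 : Hs Ω →ₗ[ℝ] Lp ℝ q (volume : Measure (E N)) :=
    { toFun := fun p => (hm p).toLp _
      map_add' := fun p r => by
        rw [← MemLp.toLp_add]
        exact MemLp.toLp_congr _ _ (Lp.coeFn_add _ _)
      map_smul' := fun c p => by
        rw [RingHom.id_apply, ← MemLp.toLp_const_smul]
        exact MemLp.toLp_congr _ _ (Lp.coeFn_smul _ _) }
  have hb : ∀ p, ‖J0 p‖ ≤ C * ‖p.1.2‖ := by
    intro p
    change ‖(hm p).toLp _‖ ≤ _
    rw [Lp.norm_toLp]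
    refine (ENNReal.toReal_mono (ENNReal.mul_ne_top (by simp) (by simp)) (hC p)).trans ?_
    simp
  refine ⟨J0.mkContinuous C fun p => (hb p).trans ?_, C, fun p => (hm p).coeFn_toLp, hb⟩
  gcongr
  exact norm_snd_le p.1

lemma norm_pow_even {k : ℕ} (hk : k ≠ 0) (he : Even k) {q : ℝ≥0} (hq : (q : ℝ) = k)
    (f : Lp ℝ q (volume : Measure (E N))) : ‖f‖ ^ k = ∫ x, f x ^ k := by
  have h0 : q ≠ 0 := by
    rintro rfl
    exact hk (by exact_mod_cast hq.symm)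
  rw [Lp.norm_def, (Lp.memLp f).eLpNorm_eq_integral_rpow_norm (by simpa using h0) (by simp),
    ENNReal.toReal_ofReal (by positivity), ENNReal.coe_toReal, hq,
    Real.rpow_inv_natCast_pow (by positivity) hk]
  simp only [Real.rpow_natCast, Real.norm_eq_abs, he.pow_abs]

end Pool.Agent.Lib.helper10.H10
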