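import Mathlib

namespace Pool.Agent.Lib.helper10.Walsh

open MeasureTheory ProbabilityTheory Finset Filter
open scoped ENNReal

/-- the Walsh group, with false for 0 and true for 1 -/
abbrev G := ℕ → Bool

/-- the product of the uniform measures -/
noncomputable def mu : Measure G := Measure.infinitePi fun _ => uniformOn Set.univ

/-- dyadic intervals -/
def I (n : ℕ) (x : G) : Set G := {y | ∀ j < n, y j = x j}

theorem I_meas (n : ℕ) (x : G) : MeasurableSet (I n x) := by
  unfold I
  measurability

theorem I_succ (n : ℕ) (x : G) :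
    I n x = I (n + 1) (Function.update x n true) ∪ I (n + 1) (Function.update x n false) := by
  ext y
  simp only [I, Set.mem_union, Set.mem_ofPred_eq]
  grind

/-- the dyadic filtration -/
def F : Filtration ℕ (inferInstance : MeasurableSpace G) where
  seq n := .generateFrom (Set.range (I n))
  mono' := monotone_nat_of_le_succ fun n => MeasurableSpace.generateFrom_le fun _ ⟨x, h⟩ => by
    rw [← h, I_succ]
    exact .union (MeasurableSpace.measurableSet_generateFrom ⟨_, rfl⟩)
      (MeasurableSpace.measurableSet_generateFrom ⟨_, rfl⟩)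
  le' n := MeasurableSpace.generateFrom_le fun _ ⟨x, h⟩ => h ▸ I_meas n x

/-- Rademacher functions -/
def r (k : ℕ) (x : G) : ℝ := if x k then -1 else 1

/-- Walsh functions (the binary digits of n with index at least n vanish) -/
def w (n : ℕ) (x : G) : ℝ := ∏ k ∈ range n, if n.testBit k then r k x else 1

/-- Walsh-Fourier coefficients of a martingale -/
noncomputable def coef (f : ℕ → G → ℝ) (i : ℕ) : ℝ :=
  limUnder atTop fun k => ∫ x, f k x * w i x ∂mu

/-- partial sums -/
noncomputable def S (f : ℕ → G → ℝ) (k : ℕ) (x : G) : ℝ := ∑ j ∈ range k, coef f j * w j x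

/-- the L_p quasi-norm -/
noncomputable def nL (p : ℝ) (g : G → ℝ) : ℝ≥0∞ := (∫⁻ x, ‖g x‖ₑ ^ p ∂mu) ^ (1 / p)

/-- the H_p quasi-norm -/
noncomputable def nH (p : ℝ) (f : ℕ → G → ℝ) : ℝ≥0∞ := (∫⁻ x, (⨆ n, ‖f n x‖ₑ) ^ p ∂mu) ^ (1 / p)

instance : IsProbabilityMeasure mu := by
  unfold mu
  infer_instance

theorem mu_I (n : ℕ) (x : G) : mu (I n x) = 2⁻¹ ^ n := by
  have : I n x = Set.pi (range n : Finset ℕ) fun j => {x j} := by ext; simp [I]
  rw [this, mu, Measure.infinitePi_pi _ fun _ _ => measurableSet_singleton _]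
  simp [uniformOn_univ, -Bool.univ_eq]

theorem real_I (n : ℕ) (x : G) : mu.real (I n x) = 2⁻¹ ^ n := by simp [Measure.real, mu_I]

/-- changing one coordinate -/
def flp (b : ℕ) (x : G) : G := Function.update x b (!x b)

theorem flip_mp (b : ℕ) : MeasurePreserving (flp b) mu mu := by
  have h : flp b = fun x i => (if i = b then not else id) (x i) := by
    ext x i
    by_cases h : i = b <;> simp [flp, h]
  refine ⟨h ▸ by fun_prop, ?_⟩
  rw [h, mu, Measure.infinitePi_map_pi _ fun _ => by fun_prop]
  congr with i : 1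
  split_ifs
  · refine Measure.ext_of_singleton fun a => ?_
    rw [Measure.map_apply (by fun_prop) (measurableSet_singleton _),
      show not ⁻¹' {a} = {!a} by ext; simp]
    simp [uniformOn_univ, -Bool.univ_eq]
  · simp

theorem odd {g : G → ℝ} {b : ℕ} (h : ∀ x, g (flp b x) = -g x) : ∫ x, g x ∂mu = 0 := by
  have := MeasurePreserving.integral_comp' (f := MeasurableEquiv.ofInvolutive (flp b)
    (fun x => by simp [flp]) (flip_mp b).measurable) (flip_mp b) g
  simp only [MeasurableEquiv.ofInvolutive_apply, h, integral_neg] at this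
  linarith

theorem sat {n : ℕ} {s : Set G} (h : MeasurableSet[F n] s) {x y : G} (hx : y ∈ I n x) :
    x ∈ s ↔ y ∈ s := by
  induction h with
  | basic u h =>
    obtain ⟨z, rfl⟩ := h
    exact forall₂_congr fun j hj => by rw [hx j hj]
  | empty => rfl
  | compl t _ h => exact not_congr h
  | iUnion f _ h => simp [h]

theorem meas {n : ℕ} {g : G → ℝ} (h : ∀ x, ∀ y ∈ I n x, g y = g x) : StronglyMeasurable[F n] g := by
  have h1 : Measurable[F n] fun (x : G) (i : Fin n) => x i := by
    letI : MeasurableSpace G := F n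
    refine measurable_to_countable fun x => MeasurableSpace.measurableSet_generateFrom ⟨x, ?_⟩
    ext y
    simp [I, funext_iff, Fin.forall_iff]
  have : g = (fun v : Fin n → Bool => g fun j => if h : j < n then v ⟨j, h⟩ else false) ∘
      fun (x : G) (i : Fin n) => x i := funext fun x => (h x _ fun j hj => dif_pos hj).symm
  rw [this]
  exact ((measurable_of_countable _).comp h1).stronglyMeasurable

theorem flip_I {n b : ℕ} (h : n ≤ b) (x : G) : flp b x ∈ I n x := fun j hj =>
  Function.update_of_ne (by omega) _ _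

theorem cond_zero {g : G → ℝ} (hg : Integrable g mu) {n b : ℕ} (hb : n ≤ b)
    (h : ∀ x, g (flp b x) = -g x) : mu[g|F n] =ᵐ[mu] 0 :=
  (ae_eq_condExp_of_forall_setIntegral_eq (F.le n) hg (fun _ _ _ => integrableOn_zero)
    (fun s hs _ => by
      rw [← integral_indicator (f := g) (F.le n s hs), odd (b := b) fun x => by
        have := sat hs (flip_I hb x)
        by_cases hx : x ∈ s
        · simp [hx, this.1 hx, h]
        · simp [hx, mt this.2 hx]]
      simp) aestronglyMeasurable_zero).symm

theorem w_eq {n L : ℕ} (h : n < 2 ^ L) (x : G) :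
    w n x = ∏ k ∈ range L, if n.testBit k then r k x else 1 := by
  have : ∀ L, n < 2 ^ L → ∏ k ∈ range L, (if n.testBit k then r k x else 1) =
      ∏ k ∈ range (n + L), if n.testBit k then r k x else 1 := fun L h =>
    prod_subset (by simp) fun k _ hk => if_neg (by
      simpa using Nat.testBit_lt_two_pow (h.trans_le (Nat.pow_le_pow_right two_pos (by simpa using hk))))
  rw [this L h]
  exact prod_subset (by simp) fun k _ hk => if_neg (by
    simpa using Nat.testBit_lt_two_pow (Nat.lt_two_pow_self.trans_le
      (Nat.pow_le_pow_right two_pos (by simpa using hk))))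

theorem w_add {L i : ℕ} (h : i < 2 ^ L) (m : ℕ) (x : G) :
    w (2 ^ L * m + i) x = w (2 ^ L * m) x * w i x := by
  have h1 : 2 ^ L * m + i < 2 ^ (L + m) := by
    have := Nat.lt_two_pow_self (n := m)
    rw [pow_add]
    nlinarith
  rw [w_eq h1, w_eq (le_self_add.trans_lt h1), w_eq (le_add_self.trans_lt h1), ← prod_mul_distrib]
  refine prod_congr rfl fun k _ => ?_
  rw [Nat.testBit_two_pow_mul_add _ h, Nat.testBit_two_pow_mul]
  by_cases hk : k < L
  · simp [hk, hk.not_ge]
  · simp [hk, not_lt.1 hk, Nat.testBit_lt_two_pow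
      (h.trans_le (Nat.pow_le_pow_right two_pos (not_lt.1 hk)))]

theorem w_abs (n : ℕ) (x : G) : |w n x| = 1 := by
  rw [w, abs_prod]
  exact prod_eq_one fun k _ => by unfold r; split_ifs <;> simp

theorem w_sq (n : ℕ) (x : G) : w n x * w n x = 1 := by rw [← abs_mul_abs_self, w_abs, one_mul]

theorem w_meas (n : ℕ) : Measurable (w n) := by
  refine Finset.measurable_prod _ fun k _ => ?_
  split_ifs
  · exact (measurable_from_top (f := fun b : Bool => if b then (-1 : ℝ) else 1)).comp
      (measurable_pi_apply k)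
  · exact measurable_const

theorem w_flip (n b : ℕ) (x : G) : w n (flp b x) = (if n.testBit b then -1 else 1) * w n x := by
  have h : n < 2 ^ (n + b + 1) :=
    Nat.lt_two_pow_self.trans_le (Nat.pow_le_pow_right two_pos (by omega))
  have hb : b ∈ range (n + b + 1) := by simp [Nat.lt_succ_iff]
  rw [w_eq h, w_eq h, ← mul_prod_erase _ _ hb, ← mul_prod_erase _ _ hb, ← mul_assoc]
  congr 1
  · simp only [r, flp, Function.update_self]
    cases n.testBit b <;> cases x b <;> simp
  · exact prod_congr rfl fun k hk => by simp [r, flp, (mem_erase.1 hk).1]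

theorem w_congr {n L : ℕ} (h : n < 2 ^ L) {x y : G} (hx : y ∈ I L x) : w n y = w n x := by
  rw [w_eq h, w_eq h]
  exact prod_congr rfl fun k hk => by simp only [r, hx k (mem_range.1 hk)]

theorem w_zero (n : ℕ) : w n (fun _ => false) = 1 := by simp [w, r]

theorem w_pow (k : ℕ) (x : G) : w (2 ^ k) x = r k x := by
  rw [w_eq (Nat.pow_lt_pow_succ one_lt_two)]
  simp [Nat.testBit_two_pow]

theorem w_refl {L i : ℕ} (h : i < 2 ^ L) (x : G) :
    w (2 ^ L - 1 - i) x = (∏ k ∈ range L, r k x) * w i x := by
  rw [w_eq (L := L) (by omega), w_eq h, ← prod_mul_distrib]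
  refine prod_congr rfl fun k hk => ?_
  rw [Nat.sub_sub, add_comm, Nat.testBit_two_pow_sub_succ h]
  cases i.testBit k <;> cases hx : x k <;> simp [mem_range.1 hk, r, hx]

theorem w_int (i j : ℕ) : Integrable (fun x => w i x * w j x) mu :=
  .of_bound ((w_meas i).mul (w_meas j)).aestronglyMeasurable 1
    (.of_forall fun x => by simp [w_abs])

theorem w_int1 (i : ℕ) : Integrable (w i) mu :=
  .of_bound (w_meas i).aestronglyMeasurable 1 (.of_forall fun x => (w_abs i x).le)

theorem orth (i j : ℕ) : ∫ x, w i x * w j x ∂mu = if i = j then 1 else 0 := by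
  split_ifs with h
  · simp [h, w_sq]
  · obtain ⟨b, hb⟩ := Nat.exists_testBit_ne_of_ne h
    refine odd (b := b) fun x => ?_
    rw [w_flip, w_flip]
    revert hb
    cases i.testBit b <;> cases j.testBit b <;> simp

theorem dir (M : ℕ) (x : G) :
    ∑ i ∈ range (2 ^ M), w i x = (I M fun _ => false).indicator (fun _ => 2 ^ M) x := by
  induction M with
  | zero => simp [w, I]
  | succ M ih =>
    rw [pow_succ, mul_two, sum_range_add, sum_congr rfl (s₁ := range (2 ^ M))
      (f := fun i => w (2 ^ M + i) x) fun i hi => by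
        simpa [w_pow] using w_add (mem_range.1 hi) 1 x, ← mul_sum, ih]
    have h1 : x ∈ I (M + 1) (fun _ => false) ↔ x ∈ I M (fun _ => false) ∧ x M = false :=
      Nat.forall_lt_succ_right
    by_cases h : x ∈ I M fun _ => false <;> cases hx : x M <;>
      simp [Set.indicator, h1, h, hx, r, pow_succ, mul_two]

end Pool.Agent.Lib.helper10.Walsh
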